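import Mathlib
import Pool.Agent.Y717.Yao.B

/-!
# All multiplicative relations, modulo algebraic elements, between the values `Π_v(n)`
-/

set_option autoImplicit false
open Polynomial Filter Topology IsDedekindDomain

namespace Pool.Agent.Results.MP_253687_nt.MultiplicativeRelations

universe u

/-- `D_{j,v}`: the product of all monic polynomials of degree `j` over `F` not divisible by `v`. -/
noncomputable def D {F : Type u} [Field F] (v : F[X]) (j : ℕ) : F[X] :=
  ∏ᶠ P ∈ {P : F[X] | P.Monic ∧ P.natDegree = j ∧ ¬ v ∣ P}, P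

/-- The place of `F(t)` attached to an irreducible polynomial `v`. -/
noncomputable def place {F : Type u} [Field F] (v : F[X]) (hv : Irreducible v) :
    HeightOneSpectrum F[X] where
  asIdeal := Ideal.span {v}
  isPrime := (Ideal.span_singleton_prime hv.ne_zero).mpr hv.prime
  ne_bot := fun h => hv.ne_zero (Ideal.span_singleton_eq_bot.mp h)

/-- `K_v`, the completion of `K = F(t)` at `v`. -/
abbrev Kv {F : Type u} [Field F] (v : F[X]) (hv : Irreducible v) : Type u :=
  (place v hv).adicCompletion (RatFunc F)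

/-- `x` is the value `Π_v(n)`, where `a` is the sequence of base-`q` digits of `n`:
the products `∏_{j < N} (-D_{j,v})^{a_j}` converge to `x` in `K_v`. -/
def IsPiValue {F : Type u} [Field F] (v : F[X]) (hv : Irreducible v) (a : ℕ → ℕ) (x : Kv v hv) :
    Prop :=
  Tendsto (fun N : ℕ => ∏ j ∈ Finset.range N, (algebraMap F[X] (Kv v hv) (-(D v j))) ^ a j)
    atTop (𝓝 x)

/-- `a` is the sequence of base-`q` digits of the `p`-adic integer `n`. -/
def IsDigits (p : ℕ) [Fact p.Prime] (q : ℕ) (n : ℤ_[p]) (a : ℕ → ℕ) : Prop :=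
  (∀ j, a j < q) ∧ HasSum (fun j => (a j : ℤ_[p]) * (q : ℤ_[p]) ^ j) n

lemma D_eq {F : Type u} [Field F] [Fintype F] (v : F[X]) (j : ℕ) : D v j = H509R3.Yao.Dv v j := by
  classical
  unfold D H509R3.Yao.Dv
  rw [← finprod_mem_coe_finset]
  have : {P : F[X] | P.Monic ∧ P.natDegree = j ∧ ¬ v ∣ P} =
      (((H509R3.Yao.Mon j).filter (fun P => ¬ v ∣ P) : Finset F[X]) : Set F[X]) := by
    ext P
    simp only [Set.mem_setOf_eq, Finset.coe_filter, H509R3.Yao.mem_Mon]
    tauto
  rw [this]

/-- Every `Π_v(n)` exists, is unique and is nonzero.  For all `n_1, ..., n_r` in `ℤ_p` and all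
integers `m_1, ..., m_r`, the monomial `∏ Π_v(n_i)^{m_i}` is algebraic over `K = F(t)` if and only
if the sequence `j ↦ ∑ m_i (n_i)_j` of combinations of digits is ultimately periodic of period
`deg v`; in particular `Π_v(n)` is algebraic if and only if the digits of `n` are. -/
theorem result (p : ℕ) [Fact p.Prime] (F : Type u) [Field F] [Fintype F] [CharP F p]
    (v : F[X]) (hmonic : v.Monic) (hirr : Irreducible v) :
    (∀ (n : ℤ_[p]) (a : ℕ → ℕ), IsDigits p (Fintype.card F) n a →
      (∃! x : Kv v hirr, IsPiValue v hirr a x) ∧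
      ∀ x : Kv v hirr, IsPiValue v hirr a x → x ≠ 0 ∧
        (IsAlgebraic (RatFunc F) x ↔ ∃ J : ℕ, ∀ j ≥ J, a (j + v.natDegree) = a j)) ∧
    (∀ (r : ℕ) (n : Fin r → ℤ_[p]) (a : Fin r → ℕ → ℕ),
      (∀ i, IsDigits p (Fintype.card F) (n i) (a i)) →
      ∀ x : Fin r → Kv v hirr, (∀ i, IsPiValue v hirr (a i) (x i)) → ∀ m : Fin r → ℤ,
        (IsAlgebraic (RatFunc F) (∏ i, x i ^ m i) ↔
          ∃ J : ℕ, ∀ j ≥ J, ∑ i, m i * (a i (j + v.natDegree) : ℤ) = ∑ i, m i * (a i j : ℤ))) := by
  have hval : ∀ (a : ℕ → ℕ) (x : Kv v hirr), IsPiValue v hirr a x →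
      Tendsto (fun N : ℕ => ∏ j ∈ Finset.range N,
        (algebraMap F[X] (Kv v hirr) (-(H509R3.Yao.Dv v j))) ^ a j) atTop (𝓝 x) := by
    intro a x h
    unfold IsPiValue at h
    simpa only [D_eq] using h
  constructor
  · intro n a hdig
    refine ⟨?_, fun x hx => ⟨?_, ?_⟩⟩
    · obtain ⟨x, hx⟩ := H509R3.Yao.exists_Pi v hmonic hirr (place v hirr) rfl a
      refine ⟨x, ?_, fun y hy => ?_⟩
      · change IsPiValue v hirr a x
        unfold IsPiValue
        simpa only [D_eq] using hx
      · exact tendsto_nhds_unique (hval a y hy) hx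
    · exact Y717.Yao.value_ne_zero v hirr (place v hirr) rfl a x (hval a x hx)
    · exact Y717.Yao.bounded_iff p v hmonic hirr (place v hirr) rfl a _ hdig.1 x (hval a x hx)
  · intro r n a hdig x hx m
    exact Y717.Yao.monomial_iff p v hmonic hirr (place v hirr) rfl a _ (fun i => (hdig i).1) m x
      (fun i => hval (a i) (x i) (hx i))

end Pool.Agent.Results.MP_253687_nt.MultiplicativeRelations
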